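import Pool.Agent.H15.SC.TargetsX

/-!
MP_f2954d_ag, block B5: modules IA (additivity in every argument) and IR (the index only depends
on the minimal orders).
-/

open SC

namespace Pool.Agent.H4.SCX

section

variable {J : Type} (j : J)

/-- the index set as a sum -/
noncomputable def splitEquiv : (Unit ⊕ {x : J // x ≠ j}) ≃ J :=
  Equiv.ofBijective (Sum.elim (fun _ => j) Subtype.val) (by
    constructor
    · rintro (a | a) (b | b) h
      · rfl
      · exact absurd h.symm b.2
      · exact absurd h a.2
      · exact congrArg Sum.inr (Subtype.ext h)
    · intro x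
      by_cases h : x = j
      · exact ⟨Sum.inl (), h.symm⟩
      · exact ⟨Sum.inr ⟨x, h⟩, rfl⟩)

open Classical in
theorem splitEquiv_update {K : Type} (S : J → Sys K) (r : Sys K) :
    (fun i => Function.update S j r (splitEquiv j i)) =
      Sum.elim (fun _ : Unit => r) (fun x : {x : J // x ≠ j} => S x.1) := by
  funext i
  rcases i with i | i
  · change Function.update S j r j = r
    rw [Function.update_self]
  · change Function.update S j r i.1 = S i.1
    rw [Function.update_of_ne i.2]

open Classical in
theorem card_split [Fintype J] : Fintype.card J = Fintype.card {x : J // x ≠ j} + 1 := by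
  rw [← Fintype.card_congr (splitEquiv j), Fintype.card_sum, Fintype.card_unit, add_comm]

open Classical in
theorem update_nz {K : Type} [Field K] {S : J → Sys K} {r : Sys K} (hS : ∀ j, (S j).Nz)
    (hr : r.Nz) (i : J) : (Function.update S j r i).Nz := by
  by_cases h : i = j
  · subst h
    rw [Function.update_self]
    exact hr
  · rw [Function.update_of_ne h]
    exact hS i

end

open Classical in
theorem ia (hADD : T_ADD) (hG2r : T_G2r) : T_IA := by
  intro k K J _ _ _ _ _ _ S j s t hS hs ht htr
  have key : ∀ r : Sys K, r.Nz → Idx (Function.update S j r) k =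
      Idx (Sum.elim (fun _ : Unit => r) (fun x : {x : J // x ≠ j} => S x.1)) k := by
    intro r hr
    rw [← splitEquiv_update j S r]
    exact (hG2r k K J _ (Function.update S j r) (splitEquiv j) (update_nz j hS hr)).symm
  rw [key _ (Sys.mul_nz hs ht), key _ hs, key _ ht]
  exact hADD k K {x : J // x ≠ j} (fun x => S x.1) s t (fun x => hS x.1) hs ht
    (by rw [htr, card_split j])

open Classical in
theorem ir_one (hMON : T_MON) (hG2r : T_G2r) {k K J : Type} [Field k] [CharZero k] [Field K]
    [Algebra k K] [Algebra.EssFiniteType k K] [Fintype J] (S : J → Sys K) (j : J) (s t : Sys K)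
    (hS : ∀ j, (S j).Nz) (hs : s.Nz) (ht : t.Nz) (htr : Algebra.trdeg k K = (Fintype.card J : ℕ))
    (h : ∀ v : DV k K, v.mo s = v.mo t) :
    Idx (Function.update S j s) k = Idx (Function.update S j t) k := by
  have key : ∀ r : Sys K, r.Nz → Idx (Function.update S j r) k =
      Idx (Sum.elim (fun _ : Unit => r) (fun x : {x : J // x ≠ j} => S x.1)) k := by
    intro r hr
    rw [← splitEquiv_update j S r]
    exact (hG2r k K J _ (Function.update S j r) (splitEquiv j) (update_nz j hS hr)).symm
  rw [key _ hs, key _ ht]
  have hc : Algebra.trdeg k K = (Fintype.card {x : J // x ≠ j} + 1 : ℕ) := by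
    rw [htr, card_split j]
  exact le_antisymm
    (hMON k K {x : J // x ≠ j} (fun x => S x.1) s t (fun x => hS x.1) hs ht hc
      fun v => (h v).ge)
    (hMON k K {x : J // x ≠ j} (fun x => S x.1) t s (fun x => hS x.1) ht hs hc
      fun v => (h v).le)

open Classical in
theorem ir (hMON : T_MON) (hG2r : T_G2r) : T_IR := by
  intro k K J _ _ _ _ _ _ S S' hS hS' htr h
  have key : ∀ A : Finset J, Idx S k = Idx (fun j => if j ∈ A then S' j else S j) k := by
    intro A
    induction A using Finset.induction_on with
    | empty => simp
    | insert j A hj ih =>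
      rw [ih]
      have hN : ∀ i, ((fun j => if j ∈ A then S' j else S j) i).Nz := by
        intro i
        by_cases hi : i ∈ A
        · simpa [hi] using hS' i
        · simpa [hi] using hS i
      have h1 : (fun i => if i ∈ A then S' i else S i) =
          Function.update (fun i => if i ∈ A then S' i else S i) j (S j) := by
        have h2 : (fun i => if i ∈ A then S' i else S i) j = S j := by simp [hj]
        rw [← h2, Function.update_eq_self]
      have h3 : (fun i => if i ∈ insert j A then S' i else S i) =
          Function.update (fun i => if i ∈ A then S' i else S i) j (S' j) := by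
        funext i
        by_cases hi : i = j
        · subst hi
          rw [Function.update_self]
          simp
        · rw [Function.update_of_ne hi]
          simp [hi]
      rw [h3]
      nth_rewrite 1 [h1]
      exact ir_one hMON hG2r _ j (S j) (S' j) hN (hS j) (hS' j) htr (h j)
  rw [key Finset.univ]
  simp

end Pool.Agent.H4.SCX
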