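import Pool.Agent.H15.SC.TargetsX

/-!
MP_f2954d_ag, block B5: modules XA (every valuation ring contains the local ring of a closed
point), XI (the function field is essentially of finite type), XR1 (good systems generate the
function field), XK (sections of `m D` through all valuations).
-/

open SC

namespace Pool.Agent.H4.SCX

section

variable {K : Type} [Field K] [Algebra ℂ K] {N : ℕ} {w : Fin (N + 1) → K}

theorem chart_le {i : Fin (N + 1)} (A : ValuationSubring K) (hA : ∀ c : ℂ, algebraMap ℂ K c ∈ A)
    (h : ∀ j, w j / w i ∈ A) : ∀ a ∈ chart w i, a ∈ A := by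
  intro a ha
  induction ha using Algebra.adjoin_induction with
  | mem x hx =>
    obtain ⟨j, rfl⟩ := hx
    exact h j
  | algebraMap c => exact hA c
  | add x y _ _ hx hy => exact A.add_mem _ _ hx hy
  | mul x y _ _ hx hy => exact A.mul_mem _ _ hx hy

end

theorem xa : T_XA := by
  intro K _ _ N n w hw A hA
  obtain ⟨i0, hi0⟩ := hw.nonzero
  obtain ⟨i, hi⟩ := Finite.exists_max (fun i => A.valuation (w i))
  have hwi : w i ≠ 0 := by
    intro h0
    have h1 := hi i0
    simp only [h0, map_zero, le_zero_iff] at h1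
    exact hi0 ((map_eq_zero _).1 h1)
  have hj : ∀ j, w j / w i ∈ A := by
    intro j
    rw [← A.valuation_le_one_iff, map_div₀]
    have h2 : A.valuation (w i) ≠ 0 := (map_ne_zero _).2 hwi
    exact div_le_one_of_le₀ (hi j) zero_le
  have hle := chart_le (w := w) (i := i) A hA hj
  let P : Ideal (chart w i) :=
    { carrier := {a | A.valuation (a : K) < 1}
      add_mem' := fun {a b} ha hb => by
        have ha' : A.valuation (a : K) < 1 := ha
        have hb' : A.valuation (b : K) < 1 := hb
        exact lt_of_le_of_lt (A.valuation.map_add _ _) (max_lt ha' hb')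
      zero_mem' := by
        change A.valuation ((0 : chart w i) : K) < 1
        simp
      smul_mem' := fun c a ha => by
        have ha' : A.valuation (a : K) < 1 := ha
        have hc : A.valuation (c : K) ≤ 1 := (A.valuation_le_one_iff _).2 (hle _ c.2)
        change A.valuation ((c * a : chart w i) : K) < 1
        rw [Subalgebra.coe_mul, map_mul]
        exact mul_lt_one_of_nonneg_of_lt_one_right hc zero_le ha' }
  have hP : P ≠ ⊤ := by
    intro h
    have h1 : (1 : chart w i) ∈ P := by rw [h]; trivial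
    have h2 : A.valuation ((1 : chart w i) : K) < 1 := h1
    simp at h2
  obtain ⟨p, hp, hPp⟩ := Ideal.exists_le_maximal P hP
  refine ⟨i, hwi, p, hp, ?_⟩
  rintro x ⟨a, b, hb, rfl⟩
  have hb1 : ¬ A.valuation (b : K) < 1 := fun h => hb (hPp h)
  have ha : A.valuation (a : K) ≤ 1 := (A.valuation_le_one_iff _).2 (hle _ a.2)
  rw [← A.valuation_le_one_iff, map_div₀]
  push Not at hb1
  exact div_le_one_of_le₀ (ha.trans hb1) zero_le

theorem xi : T_XI := by
  intro K _ _ N n w hw
  obtain ⟨i, hi⟩ := hw.nonzero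
  classical
  rw [← IntermediateField.fg_top_iff]
  refine ⟨Finset.univ.image fun j => w j / w i, ?_⟩
  rw [eq_top_iff, ← hw.functionField i hi, IntermediateField.adjoin_le_iff]
  intro a ha
  have hle : chart w i ≤ (IntermediateField.adjoin ℂ
      ((Finset.univ.image fun j => w j / w i : Finset K) : Set K)).toSubalgebra := by
    refine Algebra.adjoin_le ?_
    rintro _ ⟨j, rfl⟩
    apply IntermediateField.subset_adjoin
    simp
  exact hle ha

theorem xr1 : T_XR1 := by
  intro K _ _ N n w hw i₀ H₀ D T hH hT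
  obtain ⟨-, S, hS, hTS⟩ := hT
  have hw0 : w i₀ ≠ 0 := hH.1
  -- a nonzero element of `S`
  obtain ⟨p, hp⟩ := Ideal.exists_maximal (chart w i₀)
  obtain ⟨l, hl⟩ := hS.2 i₀ hw0 p hp
  have hl0 : S.s l ≠ 0 := hl.1
  unfold Generates
  rw [eq_top_iff, ← hw.functionField i₀ hw0, IntermediateField.adjoin_le_iff]
  intro a ha
  set F := IntermediateField.adjoin ℂ {z : K | ∃ i j, z = T.s i / T.s j} with hF
  have hle : chart w i₀ ≤ F.toSubalgebra := by
    refine Algebra.adjoin_le ?_
    rintro _ ⟨j, rfl⟩
    obtain ⟨t, ht⟩ := hTS j l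
    obtain ⟨t', ht'⟩ := hTS i₀ l
    apply IntermediateField.subset_adjoin
    refine ⟨t, t', ?_⟩
    rw [ht, ht', div_self hw0, one_mul, mul_div_assoc, div_self hl0, mul_one]
  exact hle ha

theorem xk (hXA : T_XA) (hXB : T_XB) (hXF : T_XF) (hXL1 : T_XL1) : T_XK := by
  intro K _ _ N n w hw D S hS m
  -- value at a prime divisor
  have hmo : ∀ v : PDiv w, v.1.mo S = - D v := by
    intro v
    obtain ⟨i, hi, p, hp, h⟩ := hXA K N n w hw v.1.vs fun c => by
      rw [DV.mem_vs, v.1.ord_base]
    obtain ⟨j, hj⟩ := hS.2 i hi p hp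
    have h1 := (hXL1 K N n w hw D S i p (S.s j) hS hi hp hj).1 v.1 h
    have h2 : Through v p := (hXB K N w i p v hp).2 h
    have h3 := hj.2 v h2
    rw [h1]
    omega
  ext g
  constructor
  · intro hg
    rw [mem_Hs]
    intro v
    by_cases hg0 : g = 0
    · exact Or.inl hg0
    right
    obtain ⟨i, hi, p, hp, h⟩ := hXA K N n w hw v.vs fun c => by
      rw [DV.mem_vs, v.ord_base]
    obtain ⟨j, hj⟩ := hS.2 i hi p hp
    have h1 := (hXL1 K N n w hw D S i p (S.s j) hS hi hp hj).1 v h
    have hx0 : S.s j ≠ 0 := hj.1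
    have hxm : S.s j ^ m ≠ 0 := pow_ne_zero _ hx0
    have h2 : InLoc p (g / S.s j ^ m) := by
      refine hXF K N n w hw i p _ hi hp (div_ne_zero hg0 hxm) fun v' hv' => ?_
      rw [v'.1.ord_div hg0 hxm, v'.1.ord_pow]
      have h3 := hj.2 v' hv'
      have h4 := (hg v').resolve_left hg0
      have h5 : (m • D) v' = m * D v' := by simp
      rw [h5] at h4
      have h6 : v'.1.ord (S.s j) = - D v' := by omega
      rw [h6]
      linarith
    have h7 := h _ h2
    rw [DV.mem_vs, v.ord_div hg0 hxm, v.ord_pow] at h7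
    rw [DV.val_cons, DV.val_nil, h1]
    simp only [add_zero]
    linarith
  · intro hg v
    rw [mem_Hs] at hg
    by_cases hg0 : g = 0
    · exact Or.inl hg0
    right
    have h1 := (hg v.1).resolve_left hg0
    rw [DV.val_cons, DV.val_nil, hmo] at h1
    have h5 : (m • D) v = m * D v := by simp
    rw [h5]
    simp only [add_zero] at h1
    linarith

end Pool.Agent.H4.SCX
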