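import Pool.Agent.H15.SC.TargetsX

/-!
MP_f2954d_ag, block B5: modules XH1 (residue field of a prime divisor), XR2 (good systems generate
the residue fields of the prime divisors), XQ (formal properties of very ample divisors).
-/

open SC

namespace Pool.Agent.H4.SCX

section

variable {K : Type} [Field K] [Algebra ℂ K] {N : ℕ} {w : Fin (N + 1) → K}

theorem red_chart (v : DV ℂ K) {i : Fin (N + 1)} (h : ∀ a ∈ chart w i, 0 ≤ v.ord a)
    (F : IntermediateField ℂ v.Res) (hF : ∀ j, v.red (w j / w i) ∈ F) :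
    ∀ a ∈ chart w i, v.red a ∈ F := by
  intro a ha
  induction ha using Algebra.adjoin_induction with
  | mem x hx =>
    obtain ⟨j, rfl⟩ := hx
    exact hF j
  | algebraMap c =>
    rw [v.red_algebraMap]
    exact F.algebraMap_mem c
  | add x y hx hy hx' hy' =>
    rw [v.red_add (h x hx) (h y hy)]
    exact F.add_mem hx' hy'
  | mul x y hx hy hx' hy' =>
    rw [v.red_mul (h x hx) (h y hy)]
    exact F.mul_mem hx' hy'

theorem mem_chart_self (i j : Fin (N + 1)) : w j / w i ∈ chart w i :=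
  Algebra.subset_adjoin ⟨j, rfl⟩

theorem inLoc_chart {i : Fin (N + 1)} {p : Ideal (chart w i)} (hp : p.IsMaximal) {a : K}
    (ha : a ∈ chart w i) : InLoc p a := by
  refine ⟨⟨a, ha⟩, 1, ?_, by simp⟩
  intro h
  exact hp.ne_top ((Ideal.eq_top_iff_one p).2 h)

/-- a valuation which is nonnegative on the `i`-th chart takes the minimal value at `w i` -/
theorem mo_wsys (v : DV ℂ K) {i : Fin (N + 1)} (hi : w i ≠ 0) (h : ∀ a ∈ chart w i, 0 ≤ v.ord a) :
    v.mo (wsys w) = v.ord (w i) := by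
  refine v.mo_eq_of (S := wsys w) (fun j hj => ?_) ⟨i, hi, rfl⟩
  have h1 := h _ (mem_chart_self (w := w) i j)
  have hj' : w j ≠ 0 := hj
  rw [v.ord_div hj' hi] at h1
  change v.ord (w i) ≤ v.ord (w j)
  omega

end

theorem xh1 (hXC : T_XC) : T_XH1 := by
  intro K _ _ N n w hw v i hi h
  rw [eq_top_iff]
  intro y _
  obtain ⟨x, hx, hx0, -⟩ := v.1.exists_red y
  obtain ⟨a, ha, b, hb, hb0, hob, rfl⟩ := hXC K N n w hw v i hi h x hx0
  rw [← hx, v.1.red_div (h a ha) hob]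
  set F := IntermediateField.adjoin ℂ (Set.range fun j => v.1.red (w j / w i)) with hF
  have hmem : ∀ j, v.1.red (w j / w i) ∈ F := fun j =>
    IntermediateField.subset_adjoin _ _ ⟨j, rfl⟩
  exact F.div_mem (red_chart v.1 h F hmem a ha) (red_chart v.1 h F hmem b hb)

theorem xr2 (hXH1 : T_XH1) (hXA : T_XA) (hXL1 : T_XL1) : T_XR2 := by
  intro K _ _ N n w hw i₀ H₀ D T hH hT v
  obtain ⟨hTD, S, hS, hTS⟩ := hT
  have hw0 : w i₀ ≠ 0 := hH.1
  obtain ⟨i, hi, p, hp, hloc⟩ := hXA K N n w hw v.1.vs fun c => by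
    rw [DV.mem_vs, v.1.ord_base]
  have hloc' : ∀ y, InLoc p y → 0 ≤ v.1.ord y := hloc
  have hch : ∀ a ∈ chart w i, 0 ≤ v.1.ord a := fun a ha => hloc' a (inLoc_chart hp ha)
  obtain ⟨l, hl⟩ := hS.2 i hi p hp
  have hl0 : S.s l ≠ 0 := hl.1
  obtain ⟨t, ht⟩ := hTS i l
  have ht0 : T.s t ≠ 0 := by
    rw [ht]
    exact mul_ne_zero (div_ne_zero hi hw0) hl0
  have hgen : GenAt D p (T.s t) := by
    refine ⟨ht0, fun v' hv' => ?_⟩
    have h1 := hl.2 v' hv'
    have h2 : H₀ v' = v'.1.ord (w i₀) - v'.1.mo (wsys w) := hH.2 v'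
    have h3 := mo_wsys v'.1 hi hv'.1
    rw [ht, v'.1.ord_mul _ _ (div_ne_zero hi hw0) hl0, v'.1.ord_div hi hw0]
    have h4 : (D - H₀) v' = D v' - H₀ v' := by simp
    rw [h4, h2, h3] at h1
    omega
  have hmo : v.1.mo T = v.1.ord (T.s t) :=
    (hXL1 K N n w hw D T i p (T.s t) hTD hi hp hgen).1 v.1 hloc'
  -- the residues
  have hz0 : v.1.red (T.s t * v.1.unif ^ (- v.1.mo T)) ≠ 0 := by
    refine v.1.red_ne_zero (mul_ne_zero ht0 (v.1.unif_zpow_ne_zero _)) ?_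
    rw [v.1.ord_mul _ _ ht0 (v.1.unif_zpow_ne_zero _), v.1.ord_unif_zpow, hmo]
    omega
  have hz1 : 0 ≤ v.1.ord (T.s t * v.1.unif ^ (- v.1.mo T)) := v.1.res_ord_nonneg T t
  unfold Generates
  rw [eq_top_iff, ← hXH1 K N n w hw v i hi hch, IntermediateField.adjoin_le_iff]
  rintro _ ⟨j, rfl⟩
  apply IntermediateField.subset_adjoin
  obtain ⟨tj, htj⟩ := hTS j l
  refine ⟨tj, t, ?_⟩
  have e1 : T.s tj = w j / w i * T.s t := by
    rw [htj, ht]
    field_simp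
  change v.1.red (w j / w i) = v.1.red (T.s tj * v.1.unif ^ (- v.1.mo T)) /
    v.1.red (T.s t * v.1.unif ^ (- v.1.mo T))
  rw [e1, mul_assoc, v.1.red_mul (hch _ (mem_chart_self i j)) hz1, mul_div_assoc, div_self hz0,
    mul_one]

section

variable {K : Type} [Field K] [Algebra ℂ K] {N : ℕ} {w : Fin (N + 1) → K}

theorem gg_add (hXJ : T_XJ) (hXP : T_XP) {n : ℕ} (hw : IsSmoothProj w n) {D D' : DivZ w}
    (h : GloballyGenerated D) (h' : GloballyGenerated D') : GloballyGenerated (D + D') := by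
  rw [hXJ K N n w hw] at h h' ⊢
  obtain ⟨S, hS⟩ := h
  obtain ⟨S', hS'⟩ := h'
  exact ⟨S.mul S', hXP K N w D D' S S' hS hS'⟩

theorem gg_zero : GloballyGenerated (0 : DivZ w) := by
  intro i _ p _
  refine ⟨1, fun v => ?_, one_ne_zero, fun v _ => ?_⟩
  · right
    rw [v.1.ord_one]
    simp
  · rw [v.1.ord_one]
    simp

theorem gg_nsmul (hXJ : T_XJ) (hXP : T_XP) {n : ℕ} (hw : IsSmoothProj w n) {D : DivZ w}
    (h : GloballyGenerated D) (m : ℕ) : GloballyGenerated (m • D) := by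
  induction m with
  | zero =>
    rw [zero_smul]
    exact gg_zero
  | succ m ih =>
    rw [succ_nsmul]
    exact gg_add hXJ hXP hw ih h

end

theorem xq (hXJ : T_XJ) (hXP : T_XP) (hXN : T_XN) (hXO : T_XO) : T_XQ := by
  intro K _ _ N n w hw i₀ H₀ hH
  have hH0 : GenSys H₀ (hsys w i₀) := (hXN K N n w hw i₀ hH.1).2 H₀ hH
  have hgg : GloballyGenerated H₀ := (hXJ K N n w hw H₀).2 ⟨_, hH0⟩
  have hmul : ∀ (S T : Sys K) (a : Fin S.r) (b : Fin T.r), ∃ t, (S.mul T).s t = S.s a * T.s b := by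
    intro S T a b
    refine ⟨finProdFinEquiv (a, b), ?_⟩
    change S.s (finProdFinEquiv.symm (finProdFinEquiv (a, b))).1 *
      T.s (finProdFinEquiv.symm (finProdFinEquiv (a, b))).2 = _
    rw [Equiv.symm_apply_apply]
  refine ⟨fun D D' hD hD' => ?_, fun D hD E => ?_, fun H hA D => ?_, fun D => ⟨fun hD => ?_, ?_⟩,
    ?_, ?_⟩
  · have h1 := gg_add hXJ hXP hw (gg_add hXJ hXP hw hD hD') hgg
    have h2 : D + D' - H₀ = D - H₀ + (D' - H₀) + H₀ := by abel
    change GloballyGenerated (D + D' - H₀)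
    rw [h2]
    exact h1
  · obtain ⟨m₀, hm₀⟩ := hXO K N n w hw i₀ H₀ hH E
    refine ⟨m₀, fun m hm => ?_⟩
    have h1 := gg_add hXJ hXP hw (hm₀ m hm) (gg_nsmul hXJ hXP hw hD m)
    have h2 : E + m • D = E + m • H₀ + m • (D - H₀) := by
      rw [smul_sub]
      abel
    rw [h2]
    exact h1
  · obtain ⟨m₀, hm₀⟩ := hA (D - H₀)
    refine ⟨m₀, fun m hm => ?_⟩
    have h1 := hm₀ m hm
    have h2 : D - H₀ + m • H = D + m • H - H₀ := by abel
    rw [h2] at h1
    exact h1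
  · obtain ⟨S, hS⟩ := (hXJ K N n w hw (D - H₀)).1 hD
    refine ⟨(hsys w i₀).mul S, ?_, S, hS, fun j l => hmul (hsys w i₀) S j l⟩
    have h1 := hXP K N w H₀ (D - H₀) _ S hH0 hS
    rwa [add_sub_cancel] at h1
  · rintro ⟨T, -, S, hS, -⟩
    exact (hXJ K N n w hw (D - H₀)).2 ⟨S, hS⟩
  · rintro D D' T T' ⟨hT, S, hS, hTS⟩ ⟨hT', -⟩
    refine ⟨hXP K N w D D' T T' hT hT', S.mul T', ?_, fun j l => ?_⟩
    · have h1 := hXP K N w (D - H₀) D' S T' hS hT'
      have h2 : D - H₀ + D' = D + D' - H₀ := by abel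
      rwa [h2] at h1
    · obtain ⟨t, ht⟩ := hTS j (finProdFinEquiv.symm l).1
      obtain ⟨t', ht'⟩ := hmul T T' t (finProdFinEquiv.symm l).2
      refine ⟨t', ?_⟩
      rw [ht', ht]
      change _ = w j / w i₀ * (S.s (finProdFinEquiv.symm l).1 * T'.s (finProdFinEquiv.symm l).2)
      rw [mul_assoc]
  · rintro D T ⟨hT, -⟩
    refine ⟨hT, ?_⟩
    obtain ⟨p, hp⟩ := Ideal.exists_maximal (chart w i₀)
    obtain ⟨j, hj⟩ := hT.2 i₀ hH.1 p hp
    exact ⟨j, hj.1⟩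

end Pool.Agent.H4.SCX
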